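import Pool.Agent.H13.EDM.Targets

/-!
# MLT: mixed degrees of a function and sections
-/

set_option autoImplicit false

open Pool.Agent.H8.TD (lc dg Wsp)

namespace Pool.Agent.H61.EDM

open Pool.Agent.H13.EDM

theorem sumid (e n l : ℕ) (W : ℕ → ℕ) :
    ∑ j ∈ Finset.range (e + 1), e.choose j * n ^ j * l ^ (e - j) * (n * W (j + 1) + l * W j) =
      ∑ j ∈ Finset.range (e + 1 + 1), (e + 1).choose j * n ^ j * l ^ (e + 1 - j) * W j := by
  have h1 : ∑ j ∈ Finset.range (e + 1), e.choose j * n ^ j * l ^ (e - j) *
      (n * W (j + 1) + l * W j) =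
      ∑ j ∈ Finset.range (e + 1), e.choose j * n ^ (j + 1) * l ^ (e - j) * W (j + 1) +
      ∑ j ∈ Finset.range (e + 1), e.choose j * n ^ j * l ^ (e + 1 - j) * W j := by
    rw [← Finset.sum_add_distrib]
    refine Finset.sum_congr rfl fun j hj => ?_
    have hj' : j ≤ e := by
      have := Finset.mem_range.1 hj
      omega
    have e1 : e + 1 - j = (e - j) + 1 := by omega
    rw [e1, pow_succ, pow_succ]
    ring
  have h2 : ∑ j ∈ Finset.range (e + 1), e.choose j * n ^ j * l ^ (e + 1 - j) * W j =
      ∑ j ∈ Finset.range (e + 1 + 1), e.choose j * n ^ j * l ^ (e + 1 - j) * W j := by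
    rw [Finset.sum_range_succ _ (e + 1), Nat.choose_succ_self]
    ring
  rw [h1, h2, Finset.sum_range_succ' _ (e + 1), Finset.sum_range_succ' _ (e + 1), ← add_assoc,
    ← Finset.sum_add_distrib]
  congr 1
  · refine Finset.sum_congr rfl fun j _ => ?_
    rw [Nat.choose_succ_succ, Nat.add_sub_add_right]
    ring
  · simp

theorem rg_cast {b m m' : ℕ} {k C : Type} [Field k] [Field C] [Algebra k C] (B : Fin b → C)
    (h : m = m') (t : Fin m' → Fin b → k) :
    (Set.range fun i : Fin m => lc (t (Fin.cast h i)) B) = Set.range fun i => lc (t i) B := by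
  subst h
  rfl

theorem rg_cons {b m : ℕ} {k C : Type} [Field k] [Field C] [Algebra k C] (B : Fin b → C)
    (s : Fin b → k) (t : Fin m → Fin b → k) :
    (Set.range fun i : Fin (m + 1) => lc ((Fin.cons s t : Fin (m + 1) → Fin b → k) i) B) =
      insert (lc s B) (Set.range fun i => lc (t i) B) := by
  ext x
  simp only [Set.mem_range, Set.mem_insert_iff]
  constructor
  · rintro ⟨i, rfl⟩
    refine Fin.cases ?_ (fun i => ?_) i
    · left
      rfl
    · right
      exact ⟨i, rfl⟩
  · rintro (rfl | ⟨i, rfl⟩)
    · exact ⟨0, rfl⟩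
    · exact ⟨i.succ, rfl⟩

/-- MLT -/
theorem pf_MLT (h1 : T_ADS) (h2 : T_TRD) (h3 : T_IFD) (h4 : T_FGU) (h5 : T_MUL) : T_MLT := by
  intro e
  induction e with
  | zero =>
    intro a b n l W k κ C _ _ _ _ _ _ _ _ _ A B z _ _ hW _
    have h6 := hW 0 le_rfl (fun i => i.elim0) (fun i => i.elim0)
    have e1 : Set.range z = ∅ := Set.range_eq_empty z
    have i1 : IsEmpty (Fin (0 - 0)) := inferInstanceAs (IsEmpty (Fin 0))
    rw [Set.range_eq_empty, Set.range_eq_empty, Set.union_empty] at h6
    rw [e1]
    simpa using h6
  | succ e ih =>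
    intro a b n l W k κ C _ _ _ _ _ _ _ _ _ A B z htr hFG hW hz
    by_cases hd : dg κ (Set.range z) = 0
    · rw [hd]
      exact Nat.zero_le _
    have hind : AlgebraicIndependent κ z :=
      (h3 (e + 1) κ C z htr hFG).1 (Nat.one_le_iff_ne_zero.2 hd)
    let x : Fin 1 → C := fun _ => z 0
    have hx : AlgebraicIndependent κ x :=
      hind.comp (fun _ : Fin 1 => (0 : Fin (e + 1))) (fun i j _ => Subsingleton.elim i j)
    have hrx : Set.range x = {z 0} := Set.range_const
    have htr1 : Algebra.trdeg (IntermediateField.adjoin κ (Set.range x)) C = e :=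
      h2 1 e κ C x hx (by rw [htr, add_comm 1 e])
    have hFG1 := h4 κ C (Set.range x) hFG
    have hrz : Set.range z = Set.range x ∪ Set.range (Fin.tail z) := by
      rw [hrx]
      ext y
      simp only [Set.mem_range, Set.mem_union, Set.mem_singleton_iff]
      constructor
      · rintro ⟨i, rfl⟩
        refine Fin.cases ?_ (fun i => ?_) i
        · left
          rfl
        · right
          exact ⟨i, rfl⟩
      · rintro (rfl | ⟨i, rfl⟩)
        · exact ⟨0, rfl⟩
        · exact ⟨i.succ, rfl⟩
    rw [hrz, ← h1, ← sumid]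
    have it1 : IsScalarTower k (IntermediateField.adjoin κ (Set.range x)) C :=
      IsScalarTower.of_algebraMap_eq fun _ => rfl
    refine ih a b n l (fun j => n * W (j + 1) + l * W j) k
      (IntermediateField.adjoin κ (Set.range x)) C A B (Fin.tail z) htr1 hFG1 ?_ ?_
    · intro j hj s t
      let R : Set C := Set.range (fun i => lc (s i) A) ∪ Set.range fun i => lc (t i) B
      change dg (IntermediateField.adjoin κ (Set.range x)) R ≤ n * W (j + 1) + l * W j
      rw [h1, Set.union_comm, ← h1]
      by_cases hd2 : dg (IntermediateField.adjoin κ R) (Set.range x) = 0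
      · rw [hd2]
        exact Nat.zero_le _
      -- the members as a family
      let y : Fin e → C := fun i => if h : (i : ℕ) < j then lc (s ⟨i, h⟩) A else
        lc (t ⟨i - j, by have := i.2; omega⟩) B
      have hy : Set.range y = R := by
        ext u
        constructor
        · rintro ⟨i, rfl⟩
          by_cases h : (i : ℕ) < j
          · left
            exact ⟨⟨i, h⟩, by simp only [y, dif_pos h]⟩
          · right
            exact ⟨⟨i - j, by have := i.2; omega⟩, by simp only [y, dif_neg h]⟩
        · rintro (⟨i, rfl⟩ | ⟨i, rfl⟩)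
          · refine ⟨⟨i, lt_of_lt_of_le i.2 hj⟩, ?_⟩
            have h : (i : ℕ) < j := i.2
            simp only [y, dif_pos h]
          · have hi := i.2
            refine ⟨⟨i + j, by omega⟩, ?_⟩
            have h : ¬ ((i : ℕ) + j < j) := by omega
            simp only [y, dif_neg h]
            congr 2
            apply Fin.ext
            simp
      have hd3 : 1 ≤ dg κ (Set.range (Fin.cons (z 0) y : Fin (e + 1) → C)) := by
        rw [Fin.range_cons, hy, Set.insert_eq, Set.union_comm, ← hrx, ← h1]
        exact Nat.one_le_iff_ne_zero.2 hd2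
      have hy2 : AlgebraicIndependent κ y := by
        have h6 := (h3 (e + 1) κ C _ htr hFG).1 hd3
        exact h6.comp Fin.succ (Fin.succ_injective e)
      have htr2 : Algebra.trdeg (IntermediateField.adjoin κ R) C = (1 : ℕ) := by
        rw [← hy]
        exact h2 e 1 κ C y hy2 htr
      have hFG2 := h4 κ C R hFG
      rw [hrx]
      have it2 : IsScalarTower k (IntermediateField.adjoin κ R) C :=
        IsScalarTower.of_algebraMap_eq fun _ => rfl
      refine h5 a b (W (j + 1)) (W j) n l k (IntermediateField.adjoin κ R) C A B (z 0) htr2 hFG2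
        ?_ ?_ ?_
      · intro s'
        rw [h1]
        have h6 := hW (j + 1) (by omega) (Fin.cons s' s) (fun i => t (Fin.cast (by omega) i))
        rw [rg_cons, rg_cast B (by omega : e + 1 - (j + 1) = e - j) t] at h6
        have e1 : R ∪ {lc s' A} = insert (lc s' A) (Set.range fun i => lc (s i) A) ∪
            Set.range fun i => lc (t i) B := by
          rw [Set.insert_union, Set.union_singleton]
        rw [e1]
        exact h6
      · intro s'
        rw [h1]
        have h6 := hW j (by omega) s
          (fun i => (Fin.cons s' t : Fin (e - j + 1) → Fin b → k) (Fin.cast (by omega) i))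
        rw [rg_cast B (by omega : e + 1 - j = e - j + 1)
          (Fin.cons s' t : Fin (e - j + 1) → Fin b → k), rg_cons] at h6
        have e1 : R ∪ {lc s' B} = (Set.range fun i => lc (s i) A) ∪
            insert (lc s' B) (Set.range fun i => lc (t i) B) := by
          rw [Set.union_insert, Set.union_singleton]
        rw [e1]
        exact h6
      · exact Submodule.span_subset_span κ (IntermediateField.adjoin κ R) _ (hz 0)
    · intro i
      exact Submodule.span_subset_span κ (IntermediateField.adjoin κ (Set.range x)) _ (hz i.succ)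

end Pool.Agent.H61.EDM
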